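import Pool.Agent.H87.QP.Targets
import Pool.Agent.H70.ES.LVA
import Pool.Agent.H1.ES.ABL

/-!
# LVH. One level: the local autocorrelations and the classes modulo the primes
-/

set_option autoImplicit false

open Finset Pool.Agent.H18.MR Pool.Agent.H93.DE Pool.Agent.H6.N4D Pool.Agent.H93
  Pool.Agent.H93.ES

namespace Pool.Agent.H81.QP

open Pool.Agent.H87.QP
open Pool.Agent.H1.ES (sum_DR wsum sq_mean log_le_half)
open Pool.Agent.H70.ES (avE_mono avE_nonneg avE_add avE_mul avE_div avE_sum avE_const avZ_mono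
  avZ_nonneg avZ_add avZ_mul avZ_sum avZ_const avZ_avE kA_mod abs_ltr mem_oct primorial_dvd
  sum_QQ_le rho_pow oct_card_le info_nonneg)

lemma rho_half {w : ℕ} (hw : 10 ^ 5 ≤ w) : rho w + 70 ≤ w / 2 := by
  have hlog := log_le_half w hw
  unfold rho
  omega

attribute [local irreducible] rho

/-! ### The full mean over the samples -/

lemma coreF (w m q r₀ ρ : ℕ) (f : ℕ → ℝ) (hw : 10 ^ 5 ≤ w)
    (hm : m < w / 200) (hq : q ∈ oct m) (hf : ∀ t, |f t| ≤ 1) (hrho : ρ + 70 ≤ w / 2)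
    (hM : (∑ e : Fin (2 ^ ρ) → Fin (2 ^ (w - ρ)), smp f m (kA q r₀ 0) e (2 ^ ρ)) /
      ((2 : ℂ) ^ (w - ρ)) ^ (2 ^ ρ) =
    (∑ t ∈ range (2 ^ w + 2 ^ m),
      ((f t * wt m (2 ^ ρ * 2 ^ (w - ρ)) t : ℝ) : ℂ) * kA q r₀ 0 t) / 2 ^ w) :
    ‖wm f w (kA q r₀ 0)‖ ^ 2 ≤
    2 * (avE (2 ^ ρ) (2 ^ (w - ρ)) (fun e =>
      ‖smp f m (kA q r₀ 0) e (2 ^ ρ)‖ ^ 2) + 100 / (2 ^ ρ) ^ 2) := by
  have hRD' : 2 ^ ρ * 2 ^ (w - ρ) = 2 ^ w := by
    rw [← pow_add, Nat.add_sub_cancel' (by omega)]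
  have hRr : ((2 : ℝ) ^ ρ) = ((2 ^ ρ : ℕ) : ℝ) := by push_cast; rfl
  have hDc : ((2 : ℂ) ^ (w - ρ)) = ((2 ^ (w - ρ) : ℕ) : ℂ) := by push_cast; rfl
  have hRm' : 2 * (4 * 2 ^ m) * 2 ^ ρ ≤ 2 ^ w := by
    calc 2 * (4 * 2 ^ m) * 2 ^ ρ = 2 ^ (3 + m + ρ) := by ring
      _ ≤ 2 ^ w := Nat.pow_le_pow_right (by norm_num) (by omega)
  have hR0' : 0 < 2 ^ ρ := by positivity
  have hD0' : 0 < 2 ^ (w - ρ) := by positivity
  rw [hRr]
  rw [hDc] at hM
  rw [hRD'] at hM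
  generalize 2 ^ ρ = R at *
  generalize 2 ^ (w - ρ) = D at *
  have hR0 : (0 : ℝ) < R := by exact_mod_cast hR0'
  have hD0 : 0 < D := hD0'
  have hq1 : q ≤ 2 ^ (m + 1) ∧ 0 < q := by
    unfold oct at hq
    rw [mem_filter, mem_Ioc] at hq
    exact ⟨hq.1.2, hq.2.pos⟩
  obtain ⟨F, hFdef⟩ : ∃ F : ℕ → ℂ, F = fun t => (f t : ℂ) * kA q r₀ 0 t := ⟨_, rfl⟩
  have hFn : ∀ t, ‖F t‖ ≤ |DR q (r₀ + t)| := by
    intro t
    rw [hFdef]
    simp only
    unfold kA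
    rw [norm_mul, norm_mul, Complex.norm_real, Complex.norm_real, norm_ee, mul_one,
      Real.norm_eq_abs, Real.norm_eq_abs]
    calc |f t| * |DR q (r₀ + t)| ≤ 1 * |DR q (r₀ + t)| :=
          mul_le_mul_of_nonneg_right (hf t) (abs_nonneg _)
      _ = _ := one_mul _
  have hsum : ∀ n₀ L : ℕ, ∑ t ∈ range L, ‖F (n₀ + t)‖ ≤ 2 * L + q := by
    intro n₀ L
    calc ∑ t ∈ range L, ‖F (n₀ + t)‖ ≤ ∑ t ∈ range L, |DR q (r₀ + n₀ + t)| := by
          apply sum_le_sum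
          intro t _
          have := hFn (n₀ + t)
          rwa [← add_assoc] at this
      _ ≤ 2 * L + q := sum_DR q _ L hq1.2
  have h3 : wm f w (kA q r₀ 0) = (∑ s ∈ range (2 ^ w), F s) / 2 ^ w := by
    unfold wm
    rw [hFdef]
  obtain ⟨z, hz⟩ : ∃ z : (Fin R → Fin D) → ℂ, z = fun e => smp f m (kA q r₀ 0) e R := ⟨_, rfl⟩
  have hME2 : (∑ e, z e) / (D : ℂ) ^ R =
      (∑ t ∈ range (2 ^ w + 2 ^ m), (wt m (2 ^ w) t : ℂ) * F t) / 2 ^ w := by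
    rw [hz]
    simp only
    rw [hM]
    congr 1
    apply sum_congr rfl
    intro s _
    rw [hFdef]
    push_cast
    ring
  have h4 := wsum F m (2 ^ w) (2 ^ w + 2 ^ m) (4 * 2 ^ m) (by omega) (by
    intro n₀
    refine (hsum n₀ (2 ^ m)).trans ?_
    have : (q : ℝ) ≤ 2 * 2 ^ m := by
      have := hq1.1
      rw [pow_succ, mul_comm] at this
      exact_mod_cast this
    push_cast
    linarith)
  have hw0 : (0 : ℝ) < 2 ^ w := by positivity
  have h5 : ‖(∑ s ∈ range (2 ^ w), F s)‖ / 2 ^ w ≤ ‖(∑ e, z e) / (D : ℂ) ^ R‖ + 1 / R := by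
    rw [hME2]
    have e1 : ‖(∑ t ∈ range (2 ^ w + 2 ^ m), (wt m (2 ^ w) t : ℂ) * F t) / 2 ^ w‖ =
        ‖∑ t ∈ range (2 ^ w + 2 ^ m), (wt m (2 ^ w) t : ℂ) * F t‖ / 2 ^ w := by
      rw [norm_div, norm_pow]
      norm_num
    rw [e1]
    have e2 : ‖(∑ s ∈ range (2 ^ w), F s)‖ ≤
        ‖∑ t ∈ range (2 ^ w + 2 ^ m), (wt m (2 ^ w) t : ℂ) * F t‖ + 2 * (4 * 2 ^ m) := by
      have := norm_sub_norm_le (∑ s ∈ range (2 ^ w), F s)
        (∑ t ∈ range (2 ^ w + 2 ^ m), (wt m (2 ^ w) t : ℂ) * F t)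
      rw [norm_sub_rev] at this
      linarith
    have e3 : (2 * (4 * 2 ^ m) : ℝ) / 2 ^ w ≤ 1 / R := by
      rw [div_le_div_iff₀ hw0 hR0]
      rw [one_mul]
      exact_mod_cast hRm'
    calc ‖(∑ s ∈ range (2 ^ w), F s)‖ / 2 ^ w
        ≤ (‖∑ t ∈ range (2 ^ w + 2 ^ m), (wt m (2 ^ w) t : ℂ) * F t‖ + 2 * (4 * 2 ^ m)) / 2 ^ w :=
          div_le_div_of_nonneg_right e2 hw0.le
      _ = ‖∑ t ∈ range (2 ^ w + 2 ^ m), (wt m (2 ^ w) t : ℂ) * F t‖ / 2 ^ w +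
            2 * (4 * 2 ^ m) / 2 ^ w := add_div _ _ _
      _ ≤ _ := by linarith
  have h6 := sq_mean R D hD0 z
  obtain ⟨a, ha⟩ : ∃ a : ℝ, a = ‖(∑ e, z e) / (D : ℂ) ^ R‖ := ⟨_, rfl⟩
  rw [← ha] at h6 h5
  have ha0 : 0 ≤ a := by rw [ha]; exact norm_nonneg _
  have h7 : ‖wm f w (kA q r₀ 0)‖ ≤ a + 1 / R := by
    rw [h3, norm_div, norm_pow]
    have e1 : ‖(2 : ℂ)‖ = 2 := by norm_num
    rw [e1]
    exact h5
  have h8 : ‖wm f w (kA q r₀ 0)‖ ^ 2 ≤ (a + 1 / R) ^ 2 :=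
    pow_le_pow_left₀ (norm_nonneg _) h7 2
  rw [hz] at h6
  simp only at h6
  have e1 : (a + 1 / R) ^ 2 ≤ 2 * (a ^ 2 + (1 / R) ^ 2) := by nlinarith [sq_nonneg (a - 1 / R)]
  have e2 : (1 / (R : ℝ)) ^ 2 ≤ 100 / (R : ℝ) ^ 2 := by
    rw [div_pow]
    exact div_le_div_of_nonneg_right (by norm_num) (by positivity)
  linarith

/-! ### The samples as functions of the words -/

/-- the sign of the letter number `s` of a word -/
noncomputable def lt {L R : ℕ} (W : Fin L → Fin R → Bool) (s : ℕ) (r : Fin R) : ℝ :=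
  if h : s < L then sg (W ⟨s, h⟩ r) else 0

/-- the mean of the blocks as a function of the words -/
noncomputable def smpH {R D L : ℕ} (m a : ℕ) (c : ℕ → ℂ) (e : Fin R → Fin D)
    (W : Fin L → Fin R → Bool) : ℂ :=
  (∑ r : Fin R, (∑ s ∈ range (2 ^ m), ((lt W s r * lt W (s + a) r : ℝ) : ℂ) * c (pos e r + s)) /
    2 ^ m) / R

lemma lt_eq {N R L : ℕ} (x : ZMod N → Bool) (d : Fin R → ℕ) (n : ZMod N) {s : ℕ} (hs : s < L)
    (r : Fin R) : lt (wd (tup x d) L n) s r = ltr x n (d r + s) := by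
  unfold lt
  rw [dif_pos hs]
  unfold ltr wd tup
  have h2 : n + (((d r + s : ℕ)) : ZMod N) =
      n + (((⟨s, hs⟩ : Fin L) : ℕ) : ZMod N) + ((d r : ℕ) : ZMod N) := by
    push_cast
    ring
  rw [h2]

lemma smpH_eq {N R D L : ℕ} (x : ZMod N → Bool) (n : ZMod N) (m q h : ℕ) (c : ℕ → ℂ)
    (e : Fin R → Fin D) (hL : 2 ^ m + q * h ≤ L) :
    smp (fh (ltr x n) q h) m c e R = smpH m (q * h) c e (wd (tup x (pos e)) L n) := by
  unfold smp smpH
  congr 1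
  refine sum_congr rfl fun r _ => ?_
  rw [if_pos r.2]
  congr 1
  refine sum_congr rfl fun s hs => ?_
  rw [mem_range] at hs
  rw [lt_eq x (pos e) n (by omega : s < L), lt_eq x (pos e) n (by omega : s + q * h < L)]
  unfold fh
  rw [add_assoc]

/-! ### One octave -/

/-- the mean of the exponential test over the classes -/
noncomputable def YH {N : ℕ} [NeZero N] (x : ZMod N → Bool) (κ : ℝ) (w m h : ℕ)
    (e : Fin (2 ^ rho w) → Fin (2 ^ (w - rho w))) (q : ℕ) (n : ZMod N) : ℝ :=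
  (∑ r ∈ range q, Real.exp (κ * ‖smp (fh (ltr x n) q h) m (kA q r 0) e (2 ^ rho w)‖ ^ 2)) / q

lemma YH_pos {N : ℕ} [NeZero N] (x : ZMod N → Bool) (κ : ℝ) (w m h : ℕ)
    (e : Fin (2 ^ rho w) → Fin (2 ^ (w - rho w))) {q : ℕ}
    (hq : 0 < q) (n : ZMod N) : 0 < YH x κ w m h e q n := by
  have h1 : (0 : ℝ) < q := by exact_mod_cast hq
  exact div_pos (sum_pos (fun r _ => Real.exp_pos _) ⟨0, mem_range.2 hq⟩) h1

lemma avE_YH {N : ℕ} [NeZero N] (x : ZMod N → Bool) (κ : ℝ) (w m h : ℕ) (q : ℕ) (n : ZMod N) :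
    avE (2 ^ rho w) (2 ^ (w - rho w)) (fun e => YH x κ w m h e q n) =
      (∑ r₀ ∈ range q, avE (2 ^ rho w) (2 ^ (w - rho w)) (fun e =>
          Real.exp (κ * ‖smp (fh (ltr x n) q h) m (kA q r₀ 0) e (2 ^ rho w)‖ ^ 2))) / q := by
  unfold YH
  rw [avE_div, avE_sum (range q) (fun r e =>
    Real.exp (κ * ‖smp (fh (ltr x n) q h) m (kA q r 0) e (2 ^ rho w)‖ ^ 2))]

lemma one_octH (hDVS : T_DVS) {C : ℝ} (hC : 1 ≤ C) {w m h c : ℕ} (hc : 2 * h + 2 ≤ 2 ^ c)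
    (hexb : ∀ f : ℕ → ℝ, (∀ t, |f t| ≤ 1) →
      ∑ q ∈ oct m, (∑ r₀ ∈ range q, avE (2 ^ rho w) (2 ^ (w - rho w)) (fun e =>
        Real.exp ((w : ℝ) / 10 ^ 6 *
          ‖smp (fh f q h) m (kA q r₀ 0) e (2 ^ rho w)‖ ^ 2))) / q ≤ C * (oct m).card)
    (N : ℕ) [NeZero N] (x : ZMod N → Bool) (hN : primorial (2 ^ (m + 1)) ∣ N) :
    avZ (fun n => ∑ q ∈ oct m, avE (2 ^ rho w) (2 ^ (w - rho w)) (fun e => (w : ℝ) / 10 ^ 6 *
      ‖smp (fh (ltr x n) q h) m (kA q n.val 0) e (2 ^ rho w)‖ ^ 2)) ≤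
    avE (2 ^ rho w) (2 ^ (w - rho w)) (fun e =>
      info (tup x (pos e)) (2 ^ (m + c)) (primorial (2 ^ m)) (pr m)) +
      (oct m).card * Real.log C := by
  have hD : 0 < 2 ^ (w - rho w) := by positivity
  obtain ⟨κ, hκ⟩ : ∃ κ : ℝ, κ = (w : ℝ) / 10 ^ 6 := ⟨_, rfl⟩
  have hc0 : 0 < C := by linarith
  rw [← hκ] at hexb
  rw [← hκ]
  have hL : ∀ q ∈ oct m, 2 ^ m + q * h ≤ 2 ^ (m + c) := by
    intro q hq
    obtain ⟨-, h2, -⟩ := mem_oct hq
    have h3 : q * h ≤ 2 ^ (m + 1) * h := Nat.mul_le_mul_right _ h2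
    have h4 : 2 ^ m * (2 * h + 2) ≤ 2 ^ m * 2 ^ c := Nat.mul_le_mul_left _ hc
    have h5 : 2 ^ (m + 1) * h = 2 ^ m * (2 * h) := by ring
    have h6 : 2 ^ m * (2 * h + 2) = 2 ^ m * (2 * h) + 2 ^ m + 2 ^ m := by ring
    rw [pow_add]
    omega
  have hdvo : ∀ e : Fin (2 ^ rho w) → Fin (2 ^ (w - rho w)),
      avZ (fun n => ∑ q ∈ oct m,
        κ * ‖smp (fh (ltr x n) q h) m (kA q n.val 0) e (2 ^ rho w)‖ ^ 2) ≤
      info (tup x (pos e)) (2 ^ (m + c)) (primorial (2 ^ m)) (pr m) +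
        avZ (fun n => ∑ q ∈ oct m, (Real.log C - 1 + YH x κ w m h e q n / C)) := by
    intro e
    have h1 := hDVS N (2 ^ rho w) m (2 ^ (m + c)) x (pos e)
      (fun q W r => κ * ‖smpH m (q * h) (kA q r 0) e W‖ ^ 2) hN
    have h0 : avZ (fun n => ∑ q ∈ oct m,
        κ * ‖smp (fh (ltr x n) q h) m (kA q n.val 0) e (2 ^ rho w)‖ ^ 2) =
        avZ (fun n => ∑ q ∈ oct m, κ * ‖smpH m (q * h) (kA q (n.val % q) 0) e
          (wd (tup x (pos e)) (2 ^ (m + c)) n)‖ ^ 2) := by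
      congr 1
      funext n
      refine sum_congr rfl fun q hq => ?_
      rw [kA_mod, smpH_eq x n m q h _ e (hL q hq)]
    rw [h0]
    refine h1.trans ?_
    have h3 : avZ (fun n => ∑ q ∈ oct m, Real.log ((∑ r ∈ range q,
        Real.exp (κ * ‖smpH m (q * h) (kA q r 0) e
          (wd (tup x (pos e)) (2 ^ (m + c)) n)‖ ^ 2)) / q)) ≤
        avZ (fun n => ∑ q ∈ oct m, (Real.log C - 1 + YH x κ w m h e q n / C)) := by
      refine avZ_mono fun n => sum_le_sum fun q hq => ?_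
      have h4 : (∑ r ∈ range q, Real.exp (κ * ‖smpH m (q * h) (kA q r 0) e
          (wd (tup x (pos e)) (2 ^ (m + c)) n)‖ ^ 2)) / (q : ℝ) = YH x κ w m h e q n := by
        unfold YH
        congr 1
        refine sum_congr rfl fun r _ => ?_
        rw [smpH_eq x n m q h _ e (hL q hq)]
      rw [h4]
      have h5 := YH_pos x κ w m h e (mem_oct hq).2.2.pos n
      have h6 := Real.log_le_sub_one_of_pos (div_pos h5 hc0)
      rw [Real.log_div h5.ne' hc0.ne'] at h6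
      linarith
    linarith
  -- average over the samples
  have h1 : avE (2 ^ rho w) (2 ^ (w - rho w)) (fun e => avZ (fun n => ∑ q ∈ oct m,
      κ * ‖smp (fh (ltr x n) q h) m (kA q n.val 0) e (2 ^ rho w)‖ ^ 2)) ≤
      avE (2 ^ rho w) (2 ^ (w - rho w)) (fun e =>
        info (tup x (pos e)) (2 ^ (m + c)) (primorial (2 ^ m)) (pr m)) +
        avE (2 ^ rho w) (2 ^ (w - rho w)) (fun e =>
          avZ (fun n => ∑ q ∈ oct m, (Real.log C - 1 + YH x κ w m h e q n / C))) := by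
    refine (avE_mono hdvo).trans (le_of_eq ?_)
    rw [avE_add]
  have h2 : avE (2 ^ rho w) (2 ^ (w - rho w)) (fun e =>
      avZ (fun n => ∑ q ∈ oct m, (Real.log C - 1 + YH x κ w m h e q n / C))) ≤
      (oct m).card * Real.log C := by
    rw [← avZ_avE (fun n e => ∑ q ∈ oct m, (Real.log C - 1 + YH x κ w m h e q n / C))]
    have h3 : ∀ n : ZMod N, avE (2 ^ rho w) (2 ^ (w - rho w)) (fun e =>
        ∑ q ∈ oct m, (Real.log C - 1 + YH x κ w m h e q n / C)) ≤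
        (oct m).card * Real.log C := by
      intro n
      rw [avE_sum (oct m) (fun q e => Real.log C - 1 + YH x κ w m h e q n / C)]
      have h4 : ∀ q ∈ oct m, avE (2 ^ rho w) (2 ^ (w - rho w)) (fun e =>
          Real.log C - 1 + YH x κ w m h e q n / C) = Real.log C - 1 +
          (∑ r₀ ∈ range q, avE (2 ^ rho w) (2 ^ (w - rho w)) (fun e =>
            Real.exp (κ * ‖smp (fh (ltr x n) q h) m (kA q r₀ 0) e (2 ^ rho w)‖ ^ 2))) / q /
            C := by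
        intro q _
        rw [avE_add, avE_const hD, avE_div, avE_YH]
      rw [sum_congr rfl h4, sum_add_distrib, ← sum_div, sum_const, nsmul_eq_mul]
      have h5 := hexb (ltr x n) (abs_ltr x n)
      have h6 := (div_le_iff₀' hc0).2 h5
      linarith
    refine (avZ_mono h3).trans (le_of_eq ?_)
    rw [avZ_const]
  have h3 : avZ (fun n => ∑ q ∈ oct m, avE (2 ^ rho w) (2 ^ (w - rho w)) (fun e => κ *
      ‖smp (fh (ltr x n) q h) m (kA q n.val 0) e (2 ^ rho w)‖ ^ 2)) =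
      avE (2 ^ rho w) (2 ^ (w - rho w)) (fun e => avZ (fun n => ∑ q ∈ oct m,
      κ * ‖smp (fh (ltr x n) q h) m (kA q n.val 0) e (2 ^ rho w)‖ ^ 2)) := by
    rw [← avZ_avE (fun n e => ∑ q ∈ oct m,
      κ * ‖smp (fh (ltr x n) q h) m (kA q n.val 0) e (2 ^ rho w)‖ ^ 2)]
    congr 1
    funext n
    rw [avE_sum (oct m) (fun q e =>
      κ * ‖smp (fh (ltr x n) q h) m (kA q n.val 0) e (2 ^ rho w)‖ ^ 2)]
  rw [h3]
  linarith

lemma infs_nonneg {N : ℕ} [NeZero N] (x : ZMod N → Bool) (w c : ℕ) : 0 ≤ infs x w c :=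
  sum_nonneg fun _ _ => div_nonneg (avE_nonneg fun _ => info_nonneg _ _ _ _) (by positivity)

/-! ### One level -/

theorem pf_LVH (hDVS : T_DVS) (hEXB : T_EXB) (hMEA : T_MEA) (hQSU : T_QSU) : T_LVH := by
  intro h c hc
  obtain ⟨C, hC, hexb⟩ := hEXB
  obtain ⟨w₁, hexb⟩ := hexb h
  obtain ⟨W, hW, hqsu⟩ := hQSU
  have hlogC : 0 ≤ Real.log C := Real.log_nonneg hC
  refine ⟨2 ^ 31 * 10 ^ 6 * 2 ^ c + 4 * 10 ^ 6 * W * Real.log C + 400 * W, max w₁ (10 ^ 5),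
    by positivity, ?_⟩
  intro N w _ x hw hN
  have hw1 : w₁ ≤ w := (le_max_left _ _).trans hw
  have hw8 : 10 ^ 5 ≤ w := (le_max_right _ _).trans hw
  have hwr : (10 ^ 5 : ℝ) ≤ w := by exact_mod_cast hw8
  have hw0 : (0 : ℝ) < w := by linarith
  have hf : ∀ (n : ZMod N) (q t : ℕ), |fh (ltr x n) q h t| ≤ 1 := by
    intro n q t
    unfold fh
    rw [abs_mul]
    exact mul_le_one₀ (abs_ltr x n _) (abs_nonneg _) (abs_ltr x n _)
  -- the full mean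
  have hch : ∀ (n : ZMod N) (q m : ℕ), m ∈ Ico (w / 400) (w / 200) → q ∈ oct m →
      ‖wm (fh (ltr x n) q h) w (kA q n.val 0)‖ ^ 2 ≤
      2 * (avE (2 ^ rho w) (2 ^ (w - rho w)) (fun e =>
      ‖smp (fh (ltr x n) q h) m (kA q n.val 0) e (2 ^ rho w)‖ ^ 2) + 100 / (2 ^ rho w) ^ 2) := by
    intro n q m hm hqm
    rw [mem_Ico] at hm
    have hrho := rho_half hw8
    have hMw := hMEA w m (2 ^ rho w) (fh (ltr x n) q h) (kA q n.val 0) hw8 hm.2 le_rfl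
    exact coreF w m q n.val (rho w) _ hw8 hm.2 hqm (hf n q) hrho hMw
  -- the sum over the octaves
  have hmain : avZ (fun n => ∑ q ∈ EB.QQ w, 1 / (q : ℝ) *
      ‖wm (fh (ltr x n) q h) w (kA q n.val 0)‖ ^ 2) ≤
      ∑ m ∈ Ico (w / 400) (w / 200), 2 * ((1 / 2 ^ m) * (10 ^ 6 / w * (
        avE (2 ^ rho w) (2 ^ (w - rho w)) (fun e =>
          info (tup x (pos e)) (2 ^ (m + c)) (primorial (2 ^ m)) (pr m)) +
        (oct m).card * Real.log C) +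
        (oct m).card * (100 / (2 ^ rho w) ^ 2))) := by
    have h1 : avZ (fun n => ∑ q ∈ EB.QQ w, 1 / (q : ℝ) *
        ‖wm (fh (ltr x n) q h) w (kA q n.val 0)‖ ^ 2) ≤
        avZ (fun n => ∑ m ∈ Ico (w / 400) (w / 200), ∑ q ∈ oct m, 1 / (q : ℝ) *
        ‖wm (fh (ltr x n) q h) w (kA q n.val 0)‖ ^ 2) :=
      avZ_mono fun n => sum_QQ_le fun q => by positivity
    refine h1.trans ?_
    rw [avZ_sum (Ico (w / 400) (w / 200)) (fun m n => ∑ q ∈ oct m, 1 / (q : ℝ) *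
        ‖wm (fh (ltr x n) q h) w (kA q n.val 0)‖ ^ 2)]
    refine sum_le_sum fun m hm => ?_
    have hm' := mem_Ico.1 hm
    have hN' : primorial (2 ^ (m + 1)) ∣ N :=
      (primorial_dvd (Nat.pow_le_pow_right (by norm_num) (by omega))).trans hN
    have h2 := one_octH hDVS hC (w := w) (m := m) hc
      (fun f hf => hexb w m f hw1 hm'.1 hm'.2 hf) N x hN'
    have h3 : ∀ n : ZMod N, ∑ q ∈ oct m, 1 / (q : ℝ) *
        ‖wm (fh (ltr x n) q h) w (kA q n.val 0)‖ ^ 2 ≤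
        2 * (1 / 2 ^ m) * (10 ^ 6 / w) * (∑ q ∈ oct m,
          avE (2 ^ rho w) (2 ^ (w - rho w)) (fun e => (w : ℝ) / 10 ^ 6 *
          ‖smp (fh (ltr x n) q h) m (kA q n.val 0) e (2 ^ rho w)‖ ^ 2)) +
        2 * ((1 / 2 ^ m) * ((oct m).card * (100 / (2 ^ rho w) ^ 2))) := by
      intro n
      have h4 : ∀ q ∈ oct m, 1 / (q : ℝ) *
          ‖wm (fh (ltr x n) q h) w (kA q n.val 0)‖ ^ 2 ≤
          2 * (1 / 2 ^ m) * (10 ^ 6 / w) * avE (2 ^ rho w) (2 ^ (w - rho w)) (fun e =>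
            (w : ℝ) / 10 ^ 6 *
            ‖smp (fh (ltr x n) q h) m (kA q n.val 0) e (2 ^ rho w)‖ ^ 2) +
          2 * (1 / 2 ^ m) * (100 / (2 ^ rho w) ^ 2) := by
        intro q hq
        have h5 := hch n q m hm hq
        obtain ⟨a1, -, -⟩ := mem_oct hq
        have h6 : 1 / (q : ℝ) ≤ 1 / 2 ^ m := by
          apply one_div_le_one_div_of_le (by positivity)
          have : ((2 ^ m : ℕ) : ℝ) ≤ q := by exact_mod_cast a1.le
          push_cast at this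
          exact this
        rw [avE_mul]
        calc 1 / (q : ℝ) * ‖wm (fh (ltr x n) q h) w (kA q n.val 0)‖ ^ 2 ≤
              1 / 2 ^ m * (2 * (avE (2 ^ rho w) (2 ^ (w - rho w)) (fun e =>
                ‖smp (fh (ltr x n) q h) m (kA q n.val 0) e (2 ^ rho w)‖ ^ 2) +
                100 / (2 ^ rho w) ^ 2)) := mul_le_mul h6 h5 (by positivity) (by positivity)
          _ = _ := by
              field_simp
      refine (sum_le_sum h4).trans (le_of_eq ?_)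
      rw [sum_add_distrib, ← mul_sum, sum_const, nsmul_eq_mul]
      ring
    refine (avZ_mono h3).trans ?_
    rw [avZ_add, avZ_mul, avZ_const]
    have h7 := mul_le_mul_of_nonneg_left h2
      (by positivity : (0 : ℝ) ≤ 2 * (1 / 2 ^ m) * (10 ^ 6 / w))
    refine (add_le_add_left h7 _).trans (le_of_eq ?_)
    ring
  refine hmain.trans ?_
  -- bounds for the single parts
  obtain ⟨hr1, hr2⟩ := rho_pow w (by omega)
  have hr1' : (w : ℝ) < 2 ^ rho w := by exact_mod_cast hr1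
  have hr2' : (2 : ℝ) ^ rho w ≤ 2 ^ 30 * w := by exact_mod_cast hr2
  have hrp : (0 : ℝ) < 2 ^ rho w := by positivity
  have hoc := oct_card_le (hqsu w)
  have p1 : ∑ m ∈ Ico (w / 400) (w / 200), (1 / 2 ^ m) * (10 ^ 6 / (w : ℝ) *
      avE (2 ^ rho w) (2 ^ (w - rho w)) (fun e =>
        info (tup x (pos e)) (2 ^ (m + c)) (primorial (2 ^ m)) (pr m))) =
      (10 ^ 6 / w * 2 ^ rho w * 2 ^ c) * infs x w c := by
    unfold infs
    rw [mul_sum]
    refine sum_congr rfl fun m _ => ?_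
    generalize avE (2 ^ rho w) (2 ^ (w - rho w)) (fun e =>
        info (tup x (pos e)) (2 ^ (m + c)) (primorial (2 ^ m)) (pr m)) = I
    rw [pow_add (2 : ℝ) m c]
    field_simp
  have hinf := infs_nonneg x w c
  obtain ⟨S, hS⟩ : ∃ S : ℝ, S = ∑ m ∈ Ico (w / 400) (w / 200), (1 / 2 ^ m) * ((oct m).card : ℝ) :=
    ⟨_, rfl⟩
  rw [← hS] at hoc
  have hS0 : 0 ≤ S := by rw [hS]; exact sum_nonneg fun _ _ => by positivity
  have hsplit : ∑ m ∈ Ico (w / 400) (w / 200), 2 * ((1 / 2 ^ m) * (10 ^ 6 / (w : ℝ) * (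
        avE (2 ^ rho w) (2 ^ (w - rho w)) (fun e =>
          info (tup x (pos e)) (2 ^ (m + c)) (primorial (2 ^ m)) (pr m)) +
        (oct m).card * Real.log C) +
        (oct m).card * (100 / (2 ^ rho w) ^ 2))) =
      2 * ((10 ^ 6 / w * 2 ^ rho w * 2 ^ c) * infs x w c) +
      (2 * (10 ^ 6 / w * Real.log C)) * S + (2 * (100 / (2 ^ rho w) ^ 2)) * S := by
    rw [← p1, hS, mul_sum, mul_sum, mul_sum, ← sum_add_distrib, ← sum_add_distrib]
    refine sum_congr rfl fun m _ => ?_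
    ring
  rw [hsplit]
  have q1 : 2 * ((10 ^ 6 / (w : ℝ) * 2 ^ rho w * 2 ^ c) * infs x w c) ≤
      2 ^ 31 * 10 ^ 6 * 2 ^ c * infs x w c := by
    have e1 : 10 ^ 6 / (w : ℝ) * 2 ^ rho w ≤ 10 ^ 6 * 2 ^ 30 := by
      rw [div_mul_eq_mul_div, div_le_iff₀ hw0]
      linarith
    have e2 := mul_le_mul_of_nonneg_right (mul_le_mul_of_nonneg_right e1
      (by positivity : (0 : ℝ) ≤ 2 ^ c)) hinf
    have e3 : (2 : ℝ) ^ 31 * 10 ^ 6 * 2 ^ c * infs x w c =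
        2 * (10 ^ 6 * 2 ^ 30 * 2 ^ c * infs x w c) := by ring
    rw [e3]
    linarith
  have q2 : (2 * (10 ^ 6 / (w : ℝ) * Real.log C)) * S ≤
      4 * 10 ^ 6 * W * Real.log C * (1 / w) := by
    calc (2 * (10 ^ 6 / (w : ℝ) * Real.log C)) * S ≤
          (2 * (10 ^ 6 / (w : ℝ) * Real.log C)) * (2 * W) :=
          mul_le_mul_of_nonneg_left hoc (by positivity)
      _ = _ := by ring
  have q3 : (2 * (100 / ((2 : ℝ) ^ rho w) ^ 2)) * S ≤ 400 * W * (1 / w) := by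
    have e1 : 100 / ((2 : ℝ) ^ rho w) ^ 2 ≤ 100 * (1 / w) := by
      rw [mul_one_div]
      apply div_le_div_of_nonneg_left (by norm_num) hw0
      have : (1 : ℝ) ≤ 2 ^ rho w := by linarith
      nlinarith
    calc (2 * (100 / ((2 : ℝ) ^ rho w) ^ 2)) * S ≤ (2 * (100 * (1 / w))) * (2 * W) :=
          mul_le_mul (by linarith) hoc hS0 (by positivity)
      _ = _ := by ring
  have hexp : (2 ^ 31 * 10 ^ 6 * 2 ^ c + 4 * 10 ^ 6 * W * Real.log C + 400 * W) *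
      (infs x w c + 1 / (w : ℝ)) = 2 ^ 31 * 10 ^ 6 * 2 ^ c * infs x w c +
      4 * 10 ^ 6 * W * Real.log C * (1 / w) + 400 * W * (1 / w) +
      (2 ^ 31 * 10 ^ 6 * 2 ^ c * (1 / (w : ℝ)) + 4 * 10 ^ 6 * W * Real.log C * infs x w c +
        400 * W * infs x w c) := by ring
  rw [hexp]
  have hrest : 0 ≤ 2 ^ 31 * 10 ^ 6 * 2 ^ c * (1 / (w : ℝ)) +
      4 * 10 ^ 6 * W * Real.log C * infs x w c + 400 * W * infs x w c := by positivity
  linarith

end Pool.Agent.H81.QP
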